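import Pool.Agent.Helper73.Sym.Cohen

/-!
The countable chain condition of the Cohen poset (for an arbitrary index set).
-/

namespace Pool.Agent.Helper64.EC

open Pool.Agent.Helper73.Sym

variable {I : Type}

theorem cpt_refl (p : Coh I) : Coh.Cpt p p := by
  intro i n b c h1 h2
  rw [h1] at h2
  exact Option.some.inj h2

theorem cpt_symm {p q : Coh I} (h : Coh.Cpt p q) : Coh.Cpt q p :=
  fun i n b c h1 h2 => (h i n c b h2 h1).symm

/-- the domain of a condition -/
def cdom (p : Coh I) : Set (I × ℕ) := {x | p.f x.1 x.2 ≠ none}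

open Classical in
/-- erase one value -/
noncomputable def ers (x : I × ℕ) (p : Coh I) : Coh I :=
  ⟨fun i n => if (i, n) = x then none else p.f i n, by
    refine p.fin.subset ?_
    rintro ⟨i, n⟩ h
    simp only [ne_eq, Set.mem_ofPred_eq] at h ⊢
    intro h1
    apply h
    rw [h1]
    simp⟩

theorem ers_of_ne {x : I × ℕ} {p : Coh I} {i : I} {n : ℕ} (h : (i, n) ≠ x) :
    (ers x p).f i n = p.f i n := by
  simp [ers, h]

theorem finite_of_ncard_le (n : ℕ) : ∀ (T : Set (Coh I)),
    (∀ p ∈ T, ∀ q ∈ T, p ≠ q → ¬ Coh.Cpt p q) → (∀ p ∈ T, (cdom p).ncard ≤ n) → T.Finite := by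
  classical
  induction n with
  | zero =>
    intro T _ hn
    refine (Set.finite_singleton (⊤ : Coh I)).subset ?_
    intro p hp
    have h1 : (cdom p).ncard = 0 := Nat.le_zero.1 (hn p hp)
    have h2 : cdom p = ∅ := (Set.ncard_eq_zero p.fin).1 h1
    have h3 : p = ⊤ := by
      ext i m b
      have h4 : p.f i m = none := by
        by_contra hne
        have h5 : ((i, m) : I × ℕ) ∈ cdom p := hne
        rw [h2] at h5
        exact h5
      rw [h4, Coh.top_f]
    exact h3
  | succ n ih =>
    intro T hT hn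
    rcases T.eq_empty_or_nonempty with h0 | ⟨p0, hp0⟩
    · rw [h0]; exact Set.finite_empty
    have hcov : T ⊆ {p0} ∪ ⋃ x ∈ cdom p0,
        {p | p ∈ T ∧ ∃ b c, p0.f x.1 x.2 = some b ∧ p.f x.1 x.2 = some c ∧ b ≠ c} := by
      intro p hp
      by_cases hpp : p = p0
      · left; exact hpp
      right
      have h1 := hT p0 hp0 p hp (Ne.symm hpp)
      unfold Coh.Cpt at h1
      push Not at h1
      obtain ⟨i, m, b, c, h2, h3, h4⟩ := h1
      refine Set.mem_iUnion₂.2 ⟨(i, m), ?_, hp, b, c, h2, h3, h4⟩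
      change p0.f i m ≠ none
      rw [h2]
      simp
    refine ((Set.finite_singleton p0).union (p0.fin.biUnion fun x _ => ?_)).subset hcov
    set Tx : Set (Coh I) :=
      {p | p ∈ T ∧ ∃ b c, p0.f x.1 x.2 = some b ∧ p.f x.1 x.2 = some c ∧ b ≠ c} with hTx
    have hval : ∀ p ∈ Tx, ∀ q ∈ Tx, p.f x.1 x.2 = q.f x.1 x.2 := by
      rintro p ⟨_, b, c, h1, h2, h3⟩ q ⟨_, b', c', h1', h2', h3'⟩
      rw [h1] at h1'
      have h4 := Option.some.inj h1'
      subst h4
      rw [h2, h2']
      revert h3 h3'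
      cases b <;> cases c <;> cases c' <;> simp
    have hnn : ∀ p ∈ Tx, p.f x.1 x.2 ≠ none := by
      rintro p ⟨_, b, c, _, h2, _⟩
      rw [h2]; simp
    have hinj : Set.InjOn (ers x) Tx := by
      intro p hp q hq h
      have key : ∀ i m, p.f i m = q.f i m := by
        intro i m
        by_cases hx : (i, m) = x
        · have := hval p hp q hq
          rw [← hx] at this
          exact this
        · have h1 := congrArg (fun r => Coh.f r i m) h
          simp only [ers_of_ne hx] at h1
          exact h1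
      ext i m b
      rw [key]
    refine Set.Finite.of_finite_image (ih (ers x '' Tx) ?_ ?_) hinj
    · rintro _ ⟨p, hp, rfl⟩ _ ⟨q, hq, rfl⟩ hne hc
      have hpq : p ≠ q := fun h => hne (by rw [h])
      apply hT p hp.1 q hq.1 hpq
      intro i m b c h1 h2
      by_cases hx : (i, m) = x
      · have := hval p hp q hq
        rw [← hx] at this
        simp only at this
        rw [h1, h2] at this
        exact Option.some.inj this
      · exact hc i m b c (by rw [ers_of_ne hx]; exact h1) (by rw [ers_of_ne hx]; exact h2)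
    · rintro _ ⟨p, hp, rfl⟩
      have hss : cdom (ers x p) ⊂ cdom p := by
        refine (Set.ssubset_iff_of_subset ?_).2 ⟨x, hnn p hp, ?_⟩
        · rintro ⟨i, m⟩ h
          by_cases hx : (i, m) = x
          · exfalso
            apply h
            simp [ers, hx]
          · have h1 : (ers x p).f i m ≠ none := h
            rw [ers_of_ne hx] at h1
            exact h1
        · intro h
          apply h
          simp [ers]
      have h1 := Set.ncard_lt_ncard hss p.fin
      have h2 := hn p hp.1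
      omega

theorem countable_antichain (T : Set (Coh I))
    (hT : ∀ p ∈ T, ∀ q ∈ T, p ≠ q → ¬ Coh.Cpt p q) : T.Countable := by
  have h1 : T ⊆ ⋃ n : ℕ, {p | p ∈ T ∧ (cdom p).ncard ≤ n} := by
    intro p hp
    exact Set.mem_iUnion.2 ⟨(cdom p).ncard, hp, le_rfl⟩
  refine (Set.countable_iUnion fun n => ?_).mono h1
  refine (finite_of_ncard_le n _ ?_ ?_).countable
  · rintro p ⟨hp, _⟩ q ⟨hq, _⟩
    exact hT p hp q hq
  · rintro p ⟨_, hp⟩
    exact hp

theorem exists_predense (S : Set (Coh I)) :
    ∃ A ⊆ S, A.Countable ∧ ∀ q ∈ S, ∃ a ∈ A, Coh.Cpt q a := by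
  obtain ⟨A, hA⟩ := zorn_subset {T : Set (Coh I) | T ⊆ S ∧
      ∀ p ∈ T, ∀ q ∈ T, p ≠ q → ¬ Coh.Cpt p q} (by
    intro c hc hch
    refine ⟨⋃₀ c, ⟨Set.sUnion_subset fun t ht => (hc ht).1, ?_⟩,
      fun s hs => Set.subset_sUnion_of_mem hs⟩
    rintro p ⟨t, ht, hp⟩ q ⟨t', ht', hq⟩ hne
    rcases hch.total ht ht' with h | h
    · exact (hc ht').2 p (h hp) q hq hne
    · exact (hc ht).2 p hp q (h hq) hne)
  refine ⟨A, hA.prop.1, countable_antichain A hA.prop.2, fun q hq => ?_⟩
  by_contra hcon
  push Not at hcon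
  have h1 : q ∉ A := fun h => hcon q h (cpt_refl q)
  have h2 : insert q A ⊆ A := by
    refine hA.le_of_ge ⟨Set.insert_subset hq hA.prop.1, ?_⟩ (Set.subset_insert q A)
    rintro a (rfl | ha) b (rfl | hb) hne
    · exact absurd rfl hne
    · exact hcon b hb
    · exact fun h => hcon a ha (cpt_symm h)
    · exact hA.prop.2 a ha b hb hne
  exact h1 (h2 (Set.mem_insert q A))

theorem exists_cpt {X : Type} {s : Set X} (hs : ¬ s.Countable) (f : X → Coh I) :
    ∃ i ∈ s, ∃ j ∈ s, i ≠ j ∧ Coh.Cpt (f i) (f j) := by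
  by_contra hcon
  push Not at hcon
  apply hs
  have hinj : Set.InjOn f s := by
    intro i hi j hj h
    by_contra hne
    apply hcon i hi j hj hne
    rw [h]
    exact cpt_refl _
  refine Set.countable_of_injective_of_countable_image hinj (countable_antichain _ ?_)
  rintro _ ⟨i, hi, rfl⟩ _ ⟨j, hj, rfl⟩ hne
  exact hcon i hi j hj (fun h => hne (by rw [h]))

end Pool.Agent.Helper64.EC
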