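import Pool.Agent.Helper73.Sym.Ctb

/-!
Choice functions inside a model of ZFC.
-/

namespace Pool.Agent.Helper64.EC

open Pool.Agent.Helper73.Sym

theorem exists_choice {M : Type} [Membership M M] [IsZF M]
    (hAC : ∀ x : M, (∀ y, y ∈ x → ∃ z, z ∈ y) →
      (∀ y y', y ∈ x → y' ∈ x → ∀ z, z ∈ y → z ∈ y' → y = y') →
      ∃ c : M, ∀ y, y ∈ x → ∃ z, (z ∈ y ∧ z ∈ c) ∧ ∀ z', z' ∈ y → z' ∈ c → z' = z)
    (x y : M) (R : M → M → Prop)
    [h : Dfn (fun v : ℕ → M => ∃ a, a ∈ x ∧ ∃ b, b ∈ y ∧ v 0 = op a b ∧ R a b)]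
    (hR : ∀ a, a ∈ x → ∃ b, b ∈ y ∧ R a b) :
    ∃ f : M, Fn f x y ∧ ∀ a, a ∈ x → R a (ap f a) := by
  set r : M := rel x y R with hr
  set u : M := sep (pw r) (fun s => ∃ a, a ∈ x ∧ ∀ z, z ∈ s ↔ z ∈ r ∧ ∃ b, z = op a b) with hu
  have hu' : ∀ s, s ∈ u ↔ s ∈ pw r ∧ ∃ a, a ∈ x ∧ ∀ z, z ∈ s ↔ z ∈ r ∧ ∃ b, z = op a b := by
    intro s
    rw [hu, mem_sep]
  obtain ⟨c, hc⟩ := hAC u
    (by
      intro s hs
      obtain ⟨_, a, ha, h1⟩ := (hu' s).1 hs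
      obtain ⟨b, hb, hab⟩ := hR a ha
      exact ⟨op a b, (h1 _).2 ⟨(op_mem_rel x y R a b).2 ⟨ha, hb, hab⟩, b, rfl⟩⟩)
    (by
      intro s s' hs hs' z hz hz'
      obtain ⟨_, a, ha, h1⟩ := (hu' s).1 hs
      obtain ⟨_, a', ha', h1'⟩ := (hu' s').1 hs'
      obtain ⟨_, b, hb⟩ := (h1 z).1 hz
      obtain ⟨_, b', hb'⟩ := (h1' z).1 hz'
      have h2 := (op_inj.1 (hb.symm.trans hb')).1
      subst h2
      exact mext fun w => by rw [h1, h1'])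
  have hf : Fn (sep r (fun z => z ∈ c)) x y := by
    constructor
    · intro z hz
      rw [mem_sep] at hz
      obtain ⟨a, ha, b, hb, h1, _⟩ := mem_rel_of hz.1
      exact ⟨a, ha, b, hb, h1⟩
    · intro a ha
      have hs : sep r (fun z => ∃ b, z = op a b) ∈ u := by
        rw [hu', mem_pw]
        refine ⟨fun z hz => ?_, a, ha, fun z => ?_⟩
        · rw [mem_sep] at hz; exact hz.1
        · rw [mem_sep]
      obtain ⟨z0, ⟨hz0, hz0c⟩, hun⟩ := hc _ hs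
      rw [mem_sep] at hz0
      obtain ⟨hz0r, b0, hb0⟩ := hz0
      subst hb0
      refine ⟨b0, ?_, fun c' hc' => ?_⟩
      · rw [mem_sep]; exact ⟨hz0r, hz0c⟩
      · rw [mem_sep] at hc'
        have h3 := hun (op a c') (by rw [mem_sep]; exact ⟨hc'.1, c', rfl⟩) hc'.2
        exact (op_inj.1 h3).2
  refine ⟨_, hf, fun a ha => ?_⟩
  have h4 := ap_spec hf ha
  rw [mem_sep] at h4
  exact ((op_mem_rel x y R a _).1 h4.1).2.2

end Pool.Agent.Helper64.EC
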